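import Mathlib
import Pool.Agent.TH901.AR.Fg

/-! Fields of characteristic `p` with finitely generated absolute Galois group: Zariski density of
rational points for all Artin–Schreier coverings of affine spaces with a rational point. -/

set_option autoImplicit false
set_option linter.all false

namespace Pool.Agent.Results.MP_22cb07_al.ArtinSchreierSystems

/-- The absolute Galois group of `K` is topologically finitely generated. -/
def GaloisGroupFG (K : Type) [Field K] : Prop :=
  ∃ S : Set (Field.absoluteGaloisGroup K), S.Finite ∧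
    closure ((Subgroup.closure S : Subgroup (Field.absoluteGaloisGroup K)) :
      Set (Field.absoluteGaloisGroup K)) = Set.univ

/-- The system `Y_j ^ p - Y_j = f_j(X)`, `f_j` arbitrary polynomials over `K`: `(x, y)` is a
solution in `K`. -/
def Sol {K J V : Type} [Field K] (p : ℕ) (f : J → MvPolynomial V K) (x : V → K) (y : J → K) :
    Prop :=
  ∀ j, y j ^ p - y j = MvPolynomial.eval x (f j)

theorem result :
    -- (0) additive subgroups of finite index and polynomials without constant term
    (∀ (p : ℕ) [Fact p.Prime] (K : Type) [Field K] [CharP K p] [Infinite K]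
      (H : AddSubgroup K), H.index ≠ 0 → ∀ (J : Type) [Fintype J] (g : J → Polynomial K),
        (∀ j, (g j).eval 0 = 0) → {s : K | ∀ j, (g j).eval s ∈ H}.Infinite) ∧
    -- (1) finitely many Artin–Schreier classes
    (∀ (p : ℕ) [Fact p.Prime] (K : Type) [Field K] [CharP K p] [Infinite K] (H : AddSubgroup K),
      (∀ a : K, a ∈ H ↔ ∃ z : K, z ^ p - z = a) → H.index ≠ 0 →
      ∀ (J V : Type) [Fintype J] (f : J → MvPolynomial V K) (x₀ : V → K) (y₀ : J → K),
        Sol p f x₀ y₀ → ∀ P : MvPolynomial V K, P ≠ 0 →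
          ∃ (x : V → K) (y : J → K), Sol p f x y ∧ MvPolynomial.eval x P ≠ 0) ∧
    -- (2) finitely generated absolute Galois group
    (∀ (p : ℕ) [Fact p.Prime] (K : Type) [Field K] [CharP K p] [Infinite K], GaloisGroupFG K →
      ∀ (J V : Type) [Fintype J] (f : J → MvPolynomial V K) (x₀ : V → K) (y₀ : J → K),
        Sol p f x₀ y₀ → ∀ P : MvPolynomial V K, P ≠ 0 →
          ∃ (x : V → K) (y : J → K), Sol p f x y ∧ MvPolynomial.eval x P ≠ 0) := by
  refine ⟨?_, ?_, ?_⟩
  · intro p _ K _ _ _ H hH J _ g hg
    let _ : Algebra (ZMod p) K := ZMod.algebra K p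
    have : H.FiniteIndex := ⟨hH⟩
    exact Pool.TH901.AR.common (AddSubgroup.toZModSubmodule p H)
      (inferInstanceAs (Finite (K ⧸ H))) g hg
  · intro p _ K _ _ _ H hH hidx J V _ f x₀ y₀ h P hP
    have hHe : H = (Pool.TH901.AR.wp K p).range := by
      ext a
      rw [hH a]
      rfl
    rw [hHe] at hidx
    exact Pool.TH901.AR.as_dense hidx f x₀ y₀ h P hP
  · intro p _ K _ _ _ hG J V _ f x₀ y₀ h P hP
    exact Pool.TH901.AR.as_dense (Pool.TH901.AR.index_of_fg hG) f x₀ y₀ h P hP

end Pool.Agent.Results.MP_22cb07_al.ArtinSchreierSystems
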